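import Pool.Agent.Helper43.SF.Stmts

set_option autoImplicit false

namespace Pool.Agent.Helper43.SF

open Finset
open Pool.Agent.Helper43.OD (h dt dt_summable)

theorem bl_zt (r : ℕ) (hr : 2 ≤ r) : HasSum (fun n : ℕ => (1 : ℝ) / ((n + 1 : ℕ) : ℝ) ^ r) (zt r) := by
  have h1 : Summable (fun n : ℕ => (1 : ℝ) / (n : ℝ) ^ r) :=
    Real.summable_one_div_nat_pow.2 (by omega)
  have h2 := (summable_nat_add_iff 1).2 h1
  exact h2.hasSum

theorem st_BL : ST_BL := by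
  intro k r hr hk
  have h0 : HasSum (dt r (k - r)) (Z r (k - r)) :=
    (dt_summable r (k - r) hr (by omega)).hasSum
  have h1 : HasSum (fun q : ℕ × ℕ => dt r (k - r) (q.2, q.1)) (Z r (k - r)) := by
    have := (Equiv.prodComm ℕ ℕ).hasSum_iff (f := dt r (k - r)) (a := Z r (k - r))
    exact this.2 h0
  refine h1.prod_fiberwise ?_
  intro N
  have h2 := (hasSum_nat_add_iff' (f := fun n : ℕ => (1 : ℝ) / ((n + 1 : ℕ) : ℝ) ^ r) (N + 1)).2
    (bl_zt r hr)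
  have h3 := h2.mul_left (1 / ((N + 1 : ℕ) : ℝ) ^ (k - r))
  have hN : ((N + 1 : ℕ) : ℝ) ≠ 0 := by positivity
  have e1 : 1 / ((N + 1 : ℕ) : ℝ) ^ k * (((N + 1 : ℕ) : ℝ) ^ r * (zt r - h (N + 1) r)) =
      1 / ((N + 1 : ℕ) : ℝ) ^ (k - r) *
        (zt r - ∑ i ∈ Finset.range (N + 1), (1 : ℝ) / ((i + 1 : ℕ) : ℝ) ^ r) := by
    have e2 : ((N + 1 : ℕ) : ℝ) ^ k = ((N + 1 : ℕ) : ℝ) ^ (k - r) * ((N + 1 : ℕ) : ℝ) ^ r := by
      rw [← pow_add]; congr 1; omega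
    rw [e2, h]
    have h4 := pow_ne_zero r hN
    have h5 := pow_ne_zero (k - r) hN
    field_simp
  rw [e1]
  refine h3.congr_fun ?_
  intro j
  simp only [dt]
  rw [one_div_mul_one_div, mul_comm (((N + 1 : ℕ) : ℝ) ^ (k - r))]
  have e3 : j + N + 2 = j + (N + 1) + 1 := by ring
  rw [e3]

end Pool.Agent.Helper43.SF
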