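import Pool.Agent.Helper43.SF.Stmts

set_option autoImplicit false

namespace Pool.Agent.Helper43.SF

open Finset

theorem chs_conv (a b S : ℕ) :
    ∑ p ∈ antidiagonal S, (a + p.1).choose a * (b + p.2).choose b =
      (a + b + 1 + S).choose (a + b + 1) := by
  have h1 := PowerSeries.mk_one_pow_eq_mk_choose_add ℤ a
  have h2 := PowerSeries.mk_one_pow_eq_mk_choose_add ℤ b
  have h3 := PowerSeries.mk_one_pow_eq_mk_choose_add ℤ (a + b + 1)
  have h4 : (PowerSeries.mk 1 : PowerSeries ℤ) ^ (a + b + 1 + 1) =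
      (PowerSeries.mk 1 : PowerSeries ℤ) ^ (a + 1) * (PowerSeries.mk 1 : PowerSeries ℤ) ^ (b + 1) := by
    rw [← pow_add]
    congr 1
    ring
  rw [h1, h2, h3] at h4
  have h5 := congrArg (PowerSeries.coeff S) h4
  rw [PowerSeries.coeff_mul, PowerSeries.coeff_mk] at h5
  simp only [PowerSeries.coeff_mk] at h5
  exact_mod_cast h5.symm

theorem st_CHS : ST_CHS := by
  intro k s r hs hk
  obtain ⟨S, rfl⟩ : ∃ S, s = S + 1 := ⟨s - 1, by omega⟩
  obtain ⟨b, rfl⟩ : ∃ b, k = S + b + 2 := ⟨k - S - 2, by omega⟩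
  have h1 := chs_conv r b S
  rw [Finset.Nat.sum_antidiagonal_eq_sum_range_succ_mk] at h1
  have h2 : ∑ t ∈ Finset.Icc 1 (S + 1), (r + t - 1).choose (t - 1) *
      (S + b + 2 - 1 - t).choose (S + 1 - t) =
      ∑ j ∈ Finset.range (S + 1), (r + j).choose r * (b + (S - j)).choose b := by
    rw [← Finset.Ico_succ_right_eq_Icc, Finset.sum_Ico_eq_sum_range]
    refine Finset.sum_congr rfl fun j hj => ?_
    have hj := Finset.mem_range.1 hj
    have e1 : r + (1 + j) - 1 = r + j := by omega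
    have e2 : 1 + j - 1 = j := by omega
    have e3 : S + b + 2 - 1 - (1 + j) = b + (S - j) := by omega
    have e4 : S + 1 - (1 + j) = S - j := by omega
    rw [e1, e2, e3, e4]
    congr 1
    · rw [Nat.choose_symm_add]
    · rw [← Nat.choose_symm_add]
  rw [h2]
  rw [Nat.succ_eq_add_one] at h1
  rw [h1]
  have e5 : S + b + 2 - 1 + r = S + (r + b + 1) := by omega
  have e6 : S + 1 - 1 = S := by omega
  rw [e5, e6, Nat.choose_symm_add, add_comm (r + b + 1) S]

end Pool.Agent.Helper43.SF
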