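import Pool.Agent.Helper43.SF.Stmts

set_option autoImplicit false

namespace Pool.Agent.Helper43.SF

open Finset
open Pool.Agent.Helper43.OD (h dt dt_summable)

theorem expd_filter (k s : ℕ) (x : ℝ) (hk : 3 ≤ k) (hs : 1 ≤ s) :
    ∑ r ∈ (Finset.range k).filter Odd, ((r - 1).choose (s - 1) : ℝ) * x ^ r =
      (if s = 1 then x else 0) +
      ∑ r ∈ (Finset.range k).filter (fun r => Odd r ∧ 3 ≤ r),
        ((r - 1).choose (s - 1) : ℝ) * x ^ r := by
  have h1 : (Finset.range k).filter Odd =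
      insert 1 ((Finset.range k).filter (fun r => Odd r ∧ 3 ≤ r)) := by
    ext r
    simp only [Finset.mem_insert, Finset.mem_filter, Finset.mem_range]
    constructor
    · rintro ⟨h1, h2⟩
      rcases eq_or_ne r 1 with rfl | h3
      · exact Or.inl rfl
      · right
        refine ⟨h1, h2, ?_⟩
        obtain ⟨m, hm⟩ := h2
        omega
    · rintro (rfl | ⟨h1, h2, h3⟩)
      · exact ⟨by omega, odd_one⟩
      · exact ⟨h1, h2⟩
  rw [h1, Finset.sum_insert (by simp)]
  congr 1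
  rw [pow_one]
  split_ifs with h2
  · subst h2
    simp
  · rw [Nat.choose_eq_zero_of_lt (by omega)]
    simp

theorem expd_point (hGEO : ST_GEO) (k s : ℕ) (hke : Even k) (hs : 1 ≤ s) (hk : s + 3 ≤ k)
    (p : ℕ × ℕ) :
    ∑ r ∈ (Finset.range k).filter (fun r => Odd r ∧ 3 ≤ r),
      ((r - 1).choose (s - 1) : ℝ) * dt r (k - r) p = X k s p - Y k s p := by
  set n : ℝ := ((p.2 + 1 : ℕ) : ℝ) with hn
  set m : ℝ := ((p.1 + p.2 + 2 : ℕ) : ℝ) with hm
  set a : ℝ := ((p.1 + 1 : ℕ) : ℝ) with ha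
  set b : ℝ := ((p.1 + 2 * p.2 + 3 : ℕ) : ℝ) with hb
  have hn0 : 0 < n := by positivity
  have hm0 : 0 < m := by positivity
  have ha0 : 0 < a := by positivity
  have hb0 : 0 < b := by positivity
  have hmn : m - n = a := by rw [hm, hn, ha]; push_cast; ring
  have hmn' : m + n = b := by rw [hm, hn, hb]; push_cast; ring
  have hx0 : 0 < n / m := div_pos hn0 hm0
  have hx1 : n / m < 1 := by rw [div_lt_one hm0]; linarith
  have h1 := hGEO k s (n / m) hx0 hx1 hke hs (by omega)
  rw [expd_filter k s (n / m) (by omega) hs] at h1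
  have e1 : n / m / (1 - n / m) = n / a := by
    rw [← hmn]; field_simp
  have e2 : n / m / (1 + n / m) = n / b := by
    rw [← hmn']; field_simp
  have e3 : 1 / (1 - n / m) = m / a := by
    rw [← hmn]; field_simp
  have e4 : 1 / (1 + n / m) = m / b := by
    rw [← hmn']; field_simp
  rw [e1, e2, e3, e4] at h1
  have h2 : ∑ r ∈ (Finset.range k).filter (fun r => Odd r ∧ 3 ≤ r),
      ((r - 1).choose (s - 1) : ℝ) * dt r (k - r) p =
      1 / n ^ k * ∑ r ∈ (Finset.range k).filter (fun r => Odd r ∧ 3 ≤ r),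
        ((r - 1).choose (s - 1) : ℝ) * (n / m) ^ r := by
    rw [Finset.mul_sum]
    refine Finset.sum_congr rfl fun r hr => ?_
    have hr := Finset.mem_filter.1 hr
    have hrk := Finset.mem_range.1 hr.1
    have e5 : n ^ k = n ^ (k - r) * n ^ r := by rw [← pow_add]; congr 1; omega
    have e6 : dt r (k - r) p = 1 / (m ^ r * n ^ (k - r)) := rfl
    rw [e6, e5, div_pow]
    have := pow_ne_zero r hn0.ne'
    have := pow_ne_zero (k - r) hn0.ne'
    have := pow_ne_zero r hm0.ne'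
    field_simp
  have e7 : X k s p = 1 / n ^ k * ((1 / 2) * ((n / a) ^ s - (-1) ^ s * (n / b) ^ s) -
      (if s = 1 then n / m else 0)) := rfl
  have e8 : Y k s p = 1 / m ^ k * ((1 / 2) * ∑ t ∈ Finset.Icc 1 s,
      ((k - 1 - t).choose (s - t) : ℝ) * ((m / a) ^ t - (m / b) ^ t)) := rfl
  have e9 : 1 / n ^ k * (n / m) ^ k = 1 / m ^ k := by
    rw [div_pow]
    have := pow_ne_zero k hn0.ne'
    field_simp
  rw [h2, e7, e8, ← e9]
  linear_combination (1 / n ^ k) * h1

theorem st_EXPD (hGEO : ST_GEO) (hFX : ST_FX) (hGY : ST_GY) : ST_EXPD := by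
  intro k s hke hs hk
  obtain ⟨hX1, hX2⟩ := hFX k s hs hk
  obtain ⟨hY1, hY2⟩ := hGY k s hs hk
  have h1 : HasSum (fun p => X k s p - Y k s p) (∑' p : ℕ × ℕ, X k s p - ∑' p : ℕ × ℕ, Y k s p) :=
    hX1.hasSum.sub hY1.hasSum
  have h2 : HasSum (fun p => ∑ r ∈ (Finset.range k).filter (fun r => Odd r ∧ 3 ≤ r),
      ((r - 1).choose (s - 1) : ℝ) * dt r (k - r) p)
      (∑ r ∈ (Finset.range k).filter (fun r => Odd r ∧ 3 ≤ r),
        ((r - 1).choose (s - 1) : ℝ) * Z r (k - r)) := by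
    refine hasSum_sum fun r hr => ?_
    have hr := Finset.mem_filter.1 hr
    have hrk := Finset.mem_range.1 hr.1
    exact (dt_summable r (k - r) (by omega) (by omega)).hasSum.mul_left _
  simp only [expd_point hGEO k s hke hs hk] at h2
  have h3 := h2.unique h1
  rw [h3]
  have h4 := hX2.sub hY2
  refine h4.congr_fun ?_
  intro N
  ring

end Pool.Agent.Helper43.SF
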