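import Pool.Agent.Helper43.SF.Stmts

set_option autoImplicit false

namespace Pool.Agent.Helper43.SF

open Finset Polynomial

/-- representable functions -/
def newtRep (g : ℕ → ℝ → ℝ) : Prop :=
  ∃ a : ℕ →₀ ℝ[X], ∀ (m : ℕ) (y : ℝ), g m y = a.sum fun s p => p.eval y * (m.choose s : ℝ)

theorem newtRep_add {g g' : ℕ → ℝ → ℝ} (h : newtRep g) (h' : newtRep g') :
    newtRep (fun m y => g m y + g' m y) := by
  obtain ⟨a, ha⟩ := h
  obtain ⟨b, hb⟩ := h'
  refine ⟨a + b, fun m y => ?_⟩
  change g m y + g' m y = _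
  rw [ha, hb, Finsupp.sum_add_index']
  · intro s; simp
  · intro s p q; rw [eval_add, add_mul]

theorem newtRep_basic (p : ℝ[X]) (s : ℕ) : newtRep (fun m y => p.eval y * (m.choose s : ℝ)) := by
  refine ⟨Finsupp.single s p, fun m y => ?_⟩
  rw [Finsupp.sum_single_index]
  simp

theorem newtRep_zero : newtRep (fun _ _ => 0) := ⟨0, fun m y => by simp⟩

theorem newtRep_sum {ι : Type} (S : Finset ι) (g : ι → ℕ → ℝ → ℝ) (h : ∀ i ∈ S, newtRep (g i)) :
    newtRep (fun m y => ∑ i ∈ S, g i m y) := by
  classical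
  induction S using Finset.induction_on with
  | empty => simpa using newtRep_zero
  | insert i S hi ih =>
    have h1 := newtRep_add (h i (mem_insert_self i S))
      (ih fun j hj => h j (mem_insert_of_mem hj))
    have e : (fun (m : ℕ) (y : ℝ) => ∑ j ∈ insert i S, g j m y) =
        fun m y => g i m y + ∑ j ∈ S, g j m y := by
      funext m y
      rw [sum_insert hi]
    rw [e]
    exact h1

theorem newtRep_mulm {g : ℕ → ℝ → ℝ} (h : newtRep g) :
    newtRep (fun m y => ((m + 1 : ℕ) : ℝ) * g m y) := by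
  obtain ⟨a, ha⟩ := h
  have e : (fun (m : ℕ) (y : ℝ) => ((m + 1 : ℕ) : ℝ) * g m y) =
      fun m y => ∑ s ∈ a.support, (((C ((s : ℝ) + 1) * a s).eval y * (m.choose s : ℝ)) +
        ((C ((s : ℝ) + 1) * a s).eval y * (m.choose (s + 1) : ℝ))) := by
    funext m y
    rw [ha, Finsupp.sum, mul_sum]
    refine sum_congr rfl fun s _ => ?_
    have h1 : ((m + 1 : ℕ) : ℝ) * (m.choose s : ℝ) =
        ((m.choose s : ℝ) + (m.choose (s + 1) : ℝ)) * ((s : ℝ) + 1) := by
      have := Nat.add_one_mul_choose_eq m s
      rw [Nat.choose_succ_succ] at this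
      exact_mod_cast this
    rw [eval_mul, eval_C]
    linear_combination (a s).eval y * h1
  rw [e]
  exact newtRep_sum _ _ fun s _ => newtRep_add (newtRep_basic _ _) (newtRep_basic _ _)

theorem newtRep_poly (P : ℝ[X][X]) :
    newtRep (fun m y => P.evalEval (((m + 1 : ℕ) : ℝ)) y) := by
  induction P using Polynomial.induction_on' with
  | add P Q hP hQ =>
    have h1 := newtRep_add hP hQ
    simpa only [evalEval_add] using h1
  | monomial n f =>
    induction f using Polynomial.induction_on' with
    | add f g hf hg =>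
      have h1 := newtRep_add hf hg
      simpa only [map_add, evalEval_add] using h1
    | monomial i c =>
      have key : ∀ i : ℕ, newtRep (fun m y => c * ((m + 1 : ℕ) : ℝ) ^ i * y ^ n) := by
        intro i
        induction i with
        | zero =>
          have h1 := newtRep_basic (C c * Polynomial.X ^ n) 0
          simpa using h1
        | succ i ih =>
          have h1 := newtRep_mulm ih
          have e : (fun (m : ℕ) (y : ℝ) => ((m + 1 : ℕ) : ℝ) * (c * ((m + 1 : ℕ) : ℝ) ^ i * y ^ n)) =
              fun m y => c * ((m + 1 : ℕ) : ℝ) ^ (i + 1) * y ^ n := by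
            funext m y
            ring
          rwa [e] at h1
      have e : (fun (m : ℕ) (y : ℝ) =>
          ((monomial n) ((monomial i) c) : ℝ[X][X]).evalEval (((m + 1 : ℕ) : ℝ)) y) =
          fun m y => c * ((m + 1 : ℕ) : ℝ) ^ i * y ^ n := by
        funext m y
        simp [evalEval, eval_monomial]
      rw [e]
      exact key i

theorem st_NEWT : ST_NEWT := by
  intro P
  obtain ⟨a, ha⟩ := newtRep_poly P
  obtain ⟨d, hd⟩ : ∃ d : ℕ, a.support ⊆ Finset.range d := by
    refine ⟨a.support.sup id + 1, fun s hs => ?_⟩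
    rw [Finset.mem_range]
    have : id s ≤ a.support.sup id := Finset.le_sup hs
    simp only [id] at this
    omega
  refine ⟨d, fun s => a (s - 1), fun r hr y => ?_⟩
  obtain ⟨m, rfl⟩ : ∃ m, r = m + 1 := ⟨r - 1, by omega⟩
  have h1 := ha m y
  simp only at h1
  rw [h1, Finsupp.sum_of_support_subset a hd _ (fun s _ => by simp)]
  rw [← Finset.Ico_succ_right_eq_Icc, Finset.sum_Ico_eq_sum_range]
  refine Finset.sum_congr (by simp) fun j _ => ?_
  rw [Nat.add_sub_cancel_left, Nat.add_sub_cancel]
  change _ = eval y (a (1 + j - 1)) * ↑(m.choose j)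
  rw [Nat.add_sub_cancel_left]

end Pool.Agent.Helper43.SF
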